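import Pool.Agent.H76.NPC.Tree

/-!
Every function computed by a Mathlib stack machine in polynomial time is computed by a program of
the structured stack language in polynomial time.
-/

namespace Pool.Agent.H642R2.TMSim

open Turing Pool.Agent.NPC
open Function (update)

/-! ### reading and writing blocks of bits -/

/-- read a block of `b` bits from register `r` -/
def rd (r : ℕ) : ℕ → (List Bool → Cmd ℕ) → Cmd ℕ
  | 0, cont => cont []
  | b + 1, cont => Cmd.cases r Cmd.skip
      (Cmd.seq (Cmd.pop r) (rd r b (fun l => cont (false :: l))))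
      (Cmd.seq (Cmd.pop r) (rd r b (fun l => cont (true :: l))))

theorem rd_runs {r : ℕ} : ∀ (w : List Bool) (cont : List Bool → Cmd ℕ) (rest : List Bool)
    (s s' : ℕ → List Bool) (n : ℕ), s r = w ++ rest → Runs (cont w) (update s r rest) s' n →
    Runs (rd r w.length cont) s s' (2 * w.length + n) := by
  intro w
  induction w with
  | nil =>
    intro cont rest s s' n hs h
    have : update s r rest = s := by
      rw [List.nil_append] at hs
      rw [← hs]; exact Function.update_eq_self r s
    rw [this] at h
    simpa [rd] using h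
  | cons b w ih =>
    intro cont rest s s' n hs h
    have h1 := ih (fun l => cont (b :: l)) rest (update s r (w ++ rest)) s' n
      (by simp) (by simpa using h)
    have h2 : Runs (Cmd.pop r) s (update s r (w ++ rest)) 1 :=
      (Runs.pop s r).conv rfl (by rw [hs]; rfl) le_rfl
    cases b
    · exact (Runs.casesFalse hs (h2.seq h1)).mono (by simp; omega)
    · exact (Runs.casesTrue hs (h2.seq h1)).mono (by simp; omega)

/-- write a block of bits on register `r` -/
def wr (r : ℕ) : List Bool → Cmd ℕ
  | [] => Cmd.skip
  | b :: l => Cmd.seq (wr r l) (Cmd.push r b)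

theorem wr_runs {r : ℕ} : ∀ (w : List Bool) (s : ℕ → List Bool),
    Runs (wr r w) s (update s r (w ++ s r)) (w.length + 1) := by
  intro w
  induction w with
  | nil =>
    intro s
    refine (Runs.skip s).conv rfl ?_ (by simp)
    simp
  | cons b w ih =>
    intro s
    refine ((ih s).seq (Runs.push _ r b)).conv rfl ?_ (by simp)
    simp

/-! ### coding of symbols -/

section Coding

variable {X : Type} (A : Set X)

/-- a coding of the elements of `A` by blocks of `b` bits -/
structure Cod (b : ℕ) where
  /-- the code -/
  code : X → List Bool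
  /-- codes have length `b` -/
  len : ∀ x, (code x).length = b
  /-- the code is injective on `A` -/
  inj : ∀ x ∈ A, ∀ y ∈ A, code x = code y → x = y

theorem exists_cod (hA : A.Finite) : ∃ b, 0 < b ∧ Nonempty (Cod A b) := by
  classical
  have : Fintype A := hA.fintype
  let e := Fintype.equivFin A
  let n := Fintype.card A
  refine ⟨n + 1, Nat.succ_pos _, ⟨⟨fun x => if h : x ∈ A then
    true :: List.ofFn (fun i : Fin n => decide (e ⟨x, h⟩ = i)) else List.replicate (n + 1) true,
    ?_, ?_⟩⟩⟩
  · intro x
    by_cases h : x ∈ A <;> simp [h]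
  · intro x hx y hy h
    simp only [hx, hy, dif_pos, List.cons.injEq, true_and] at h
    have h2 := List.ofFn_injective h
    have h3 := congrFun h2 (e ⟨x, hx⟩)
    simp only [decide_true] at h3
    have h4 : e ⟨y, hy⟩ = e ⟨x, hx⟩ := of_decide_eq_true h3.symm
    have := e.injective h4
    exact (Subtype.mk.inj this).symm

end Coding

section Sim

variable {K : Type} [DecidableEq K] [Fintype K] {Γ : K → Type} {Λ σ : Type}

/-- the symbols pushed by a statement -/
def pushes : TM2.Stmt Γ Λ σ → Set (Σ k, Γ k)
  | .push k f q => Set.range (fun v => (⟨k, f v⟩ : Σ k, Γ k)) ∪ pushes q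
  | .peek _ _ q => pushes q
  | .pop _ _ q => pushes q
  | .load _ q => pushes q
  | .branch _ q₁ q₂ => pushes q₁ ∪ pushes q₂
  | .goto _ => ∅
  | .halt => ∅

theorem pushes_finite [Finite σ] (q : TM2.Stmt Γ Λ σ) : (pushes q).Finite := by
  induction q with
  | push k f q ih => exact (Set.finite_range _).union ih
  | peek _ _ q ih => exact ih
  | pop _ _ q ih => exact ih
  | load _ q ih => exact ih
  | branch _ q₁ q₂ ih₁ ih₂ => exact ih₁.union ih₂
  | goto _ => exact Set.finite_empty
  | halt => exact Set.finite_empty

variable (A : Set (Σ k, Γ k)) {b : ℕ} (C : Cod A b) {bs : ℕ} (D : Cod (Set.univ : Set (Λ × σ)) bs)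

open Classical in
/-- decoding a block as a symbol of stack `k` -/
noncomputable def dec (k : K) (w : List Bool) : Option (Γ k) :=
  if h : ∃ a : Γ k, (⟨k, a⟩ : Σ k, Γ k) ∈ A ∧ C.code ⟨k, a⟩ = w then some h.choose else none

theorem dec_code (k : K) (a : Γ k) (ha : (⟨k, a⟩ : Σ k, Γ k) ∈ A) :
    dec A C k (C.code ⟨k, a⟩) = some a := by
  have h : ∃ a' : Γ k, (⟨k, a'⟩ : Σ k, Γ k) ∈ A ∧ C.code ⟨k, a'⟩ = C.code ⟨k, a⟩ := ⟨a, ha, rfl⟩
  unfold dec
  rw [dif_pos h]
  have h2 := h.choose_spec
  have h3 := C.inj _ h2.1 _ ha h2.2
  simp only [Sigma.mk.injEq, heq_eq_eq, true_and] at h3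
  rw [h3]

open Classical in
/-- decoding a block as a state -/
noncomputable def decS (w : List Bool) : Option (Λ × σ) :=
  if h : ∃ a : Λ × σ, D.code a = w then some h.choose else none

theorem decS_code (a : Λ × σ) : decS D (D.code a) = some a := by
  have h : ∃ a' : Λ × σ, D.code a' = D.code a := ⟨a, rfl⟩
  unfold decS
  rw [dif_pos h]
  exact congrArg some (D.inj _ (Set.mem_univ _) _ (Set.mem_univ _) h.choose_spec)

/-- the register of a stack -/
noncomputable def idx (k : K) : ℕ := 3 + (Fintype.equivFin K k).1

theorem idx_inj {k k' : K} (h : idx k = idx k') : k = k' := by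
  unfold idx at h
  have : (Fintype.equivFin K k).1 = (Fintype.equivFin K k').1 := by omega
  exact (Fintype.equivFin K).injective (Fin.ext this)

theorem idx_ge (k : K) : 3 ≤ idx k := Nat.le_add_right _ _

/-- the code of a stack -/
def encS (k : K) (l : List (Γ k)) : List Bool := l.flatMap (fun a => C.code ⟨k, a⟩)

open Classical in
/-- the register file for a state code and stacks -/
noncomputable def R (w : List Bool) (S : ∀ k, List (Γ k)) : ℕ → List Bool := fun r =>
  if r = 1 then w else if h : ∃ k : K, idx k = r then encS A C h.choose (S h.choose) else []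

theorem R_one (w : List Bool) (S : ∀ k, List (Γ k)) : R A C w S 1 = w := by simp [R]

theorem R_idx (w : List Bool) (S : ∀ k, List (Γ k)) (k : K) :
    R A C w S (idx k) = encS A C k (S k) := by
  have h1 : idx k ≠ 1 := by have := idx_ge k; omega
  have h : ∃ k' : K, idx k' = idx k := ⟨k, rfl⟩
  unfold R
  rw [if_neg h1, dif_pos h, idx_inj h.choose_spec]

theorem R_other (w : List Bool) (S : ∀ k, List (Γ k)) (r : ℕ) (h1 : r ≠ 1)
    (h2 : ∀ k : K, idx k ≠ r) : R A C w S r = [] := by
  unfold R
  rw [if_neg h1, dif_neg (by rintro ⟨k, hk⟩; exact h2 k hk)]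

theorem R_update (w : List Bool) (S : ∀ k, List (Γ k)) (k : K) (l : List (Γ k)) :
    update (R A C w S) (idx k) (encS A C k l) = R A C w (update S k l) := by
  funext r
  by_cases hr : r = idx k
  · subst hr
    rw [Function.update_self, R_idx, Function.update_self]
  · rw [Function.update_of_ne hr]
    by_cases h1 : r = 1
    · subst h1; rw [R_one, R_one]
    · by_cases h2 : ∃ k' : K, idx k' = r
      · obtain ⟨k', rfl⟩ := h2
        have hne : k' ≠ k := fun h => hr (by rw [h])
        rw [R_idx, R_idx, Function.update_of_ne hne]
      · push Not at h2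
        rw [R_other _ _ _ _ _ h1 h2, R_other _ _ _ _ _ h1 h2]

theorem R_update_one (w w' : List Bool) (S : ∀ k, List (Γ k)) :
    update (R A C w S) 1 w' = R A C w' S := by
  funext r
  by_cases hr : r = 1
  · subst hr; rw [Function.update_self, R_one]
  · rw [Function.update_of_ne hr]
    unfold R
    rw [if_neg hr, if_neg hr]

/-- compilation of statements, with the internal state known -/
noncomputable def comp : TM2.Stmt Γ Λ σ → σ → Cmd ℕ
  | .push k f q, v => Cmd.seq (wr (idx k) (C.code ⟨k, f v⟩)) (comp q v)
  | .peek k f q, v =>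
    Cmd.cases (idx k) (comp q (f v none))
      (rd (idx k) b (fun w => match dec A C k w with
        | none => Cmd.skip
        | some a => Cmd.seq (wr (idx k) w) (comp q (f v (some a)))))
      (rd (idx k) b (fun w => match dec A C k w with
        | none => Cmd.skip
        | some a => Cmd.seq (wr (idx k) w) (comp q (f v (some a)))))
  | .pop k f q, v =>
    Cmd.cases (idx k) (comp q (f v none))
      (rd (idx k) b (fun w => match dec A C k w with
        | none => Cmd.skip
        | some a => comp q (f v (some a))))
      (rd (idx k) b (fun w => match dec A C k w with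
        | none => Cmd.skip
        | some a => comp q (f v (some a))))
  | .load f q, v => comp q (f v)
  | .branch f q₁ q₂, v => if f v then comp q₁ v else comp q₂ v
  | .goto f, v => wr 1 (D.code (f v, v))
  | .halt, _ => Cmd.skip

/-- a cost bound for compiled statements -/
def cst (b bs : ℕ) : TM2.Stmt Γ Λ σ → ℕ
  | .push _ _ q => b + 1 + cst b bs q
  | .peek _ _ q => 3 * b + 2 + cst b bs q
  | .pop _ _ q => 2 * b + 1 + cst b bs q
  | .load _ q => cst b bs q
  | .branch _ q₁ q₂ => cst b bs q₁ + cst b bs q₂
  | .goto _ => bs + 1
  | .halt => 1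

/-- the code of the state part of a configuration -/
def stc (c : TM2.Cfg Γ Λ σ) : List Bool :=
  match c.l with
  | none => []
  | some l => D.code (l, c.var)

/-- the stacks only contain symbols of `A` -/
def Good (S : ∀ k, List (Γ k)) : Prop := ∀ k, ∀ a ∈ S k, (⟨k, a⟩ : Σ k, Γ k) ∈ A

theorem cases_of_ne {r : ℕ} {c₀ c : Cmd ℕ} {s s' : ℕ → List Bool} {n : ℕ} (h : s r ≠ [])
    (hr : Runs c s s' n) : Runs (Cmd.cases r c₀ c c) s s' (n + 1) := by
  cases hs : s r with
  | nil => exact absurd hs h
  | cons x l =>
    cases x
    · exact Runs.casesFalse hs hr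
    · exact Runs.casesTrue hs hr

theorem comp_runs (hb : 0 < b) (q : TM2.Stmt Γ Λ σ) : pushes q ⊆ A →
    ∀ (v : σ) (S : ∀ k, List (Γ k)), Good A S →
      Good A (TM2.stepAux q v S).stk ∧
      Runs (comp A C D q v) (R A C [] S) (R A C (stc D (TM2.stepAux q v S))
        (TM2.stepAux q v S).stk) (cst b bs q) := by
  induction q with
  | push k f q ih =>
    intro hq v S hS
    have hmem : (⟨k, f v⟩ : Σ k, Γ k) ∈ A := hq (Or.inl ⟨v, rfl⟩)
    have hS' : Good A (update S k (f v :: S k)) := by
      intro k' a ha
      by_cases hk : k' = k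
      · subst hk
        rw [Function.update_self] at ha
        rcases List.mem_cons.1 ha with rfl | ha
        · exact hmem
        · exact hS _ _ ha
      · rw [Function.update_of_ne hk] at ha
        exact hS _ _ ha
    obtain ⟨h1, h2⟩ := ih (fun x hx => hq (Or.inr hx)) v _ hS'
    refine ⟨h1, ?_⟩
    have h3 := wr_runs (r := idx k) (C.code ⟨k, f v⟩) (R A C [] S)
    rw [R_idx, show C.code ⟨k, f v⟩ ++ encS A C k (S k) = encS A C k (f v :: S k) by
      simp [encS], R_update] at h3
    exact (h3.seq h2).mono (by rw [C.len]; simp [cst])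
  | peek k f q ih =>
    intro hq v S hS
    cases hk : S k with
    | nil =>
      obtain ⟨h1, h2⟩ := ih hq (f v none) S hS
      refine ⟨by simpa [hk] using h1, ?_⟩
      have h3 : R A C [] S (idx k) = [] := by rw [R_idx, hk]; rfl
      simp only [TM2.stepAux, hk, List.head?_nil]
      exact (Runs.casesNil h3 h2).mono (by simp only [cst]; omega)
    | cons a l =>
      have hmem : (⟨k, a⟩ : Σ k, Γ k) ∈ A := hS k a (by rw [hk]; simp)
      obtain ⟨h1, h2⟩ := ih hq (f v (some a)) S hS
      refine ⟨by simpa [hk] using h1, ?_⟩
      have h3 : R A C [] S (idx k) = C.code ⟨k, a⟩ ++ encS A C k l := by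
        rw [R_idx, hk]; simp [encS]
      have hne : R A C [] S (idx k) ≠ [] := by
        rw [h3]
        intro h
        have := congrArg List.length h
        rw [List.length_append, C.len] at this
        simp at this
        omega
      simp only [TM2.stepAux, hk, List.head?_cons]
      have h4 : Runs (match dec A C k (C.code ⟨k, a⟩) with
          | none => Cmd.skip
          | some a' => Cmd.seq (wr (idx k) (C.code ⟨k, a⟩)) (comp A C D q (f v (some a'))))
          (update (R A C [] S) (idx k) (encS A C k l))
          (R A C (stc D (TM2.stepAux q (f v (some a)) S)) (TM2.stepAux q (f v (some a)) S).stk)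
          (b + 1 + cst b bs q) := by
        rw [dec_code A C k a hmem]
        have h5 := wr_runs (r := idx k) (C.code ⟨k, a⟩)
          (update (R A C [] S) (idx k) (encS A C k l))
        rw [Function.update_self, Function.update_idem, ← h3, Function.update_eq_self,
          C.len] at h5
        exact h5.seq h2
      have h6 := rd_runs (r := idx k) (C.code ⟨k, a⟩) (fun w => match dec A C k w with
          | none => Cmd.skip
          | some a' => Cmd.seq (wr (idx k) w) (comp A C D q (f v (some a')))) (encS A C k l)
          (R A C [] S) _ _ h3 h4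
      rw [C.len] at h6
      exact (cases_of_ne hne h6).mono (by simp only [cst]; omega)
  | pop k f q ih =>
    intro hq v S hS
    cases hk : S k with
    | nil =>
      have hup : update S k (S k).tail = S := by
        rw [hk, List.tail_nil, ← hk]; exact Function.update_eq_self k S
      obtain ⟨h1, h2⟩ := ih hq (f v none) S hS
      have h3 : R A C [] S (idx k) = [] := by rw [R_idx, hk]; rfl
      simp only [TM2.stepAux]
      rw [hup, hk, List.head?_nil]
      refine ⟨h1, ?_⟩
      exact (Runs.casesNil h3 h2).mono (by simp [cst])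
    | cons a l =>
      have hmem : (⟨k, a⟩ : Σ k, Γ k) ∈ A := hS k a (by rw [hk]; simp)
      have hS' : Good A (update S k (S k).tail) := by
        intro k' a' ha
        by_cases hk' : k' = k
        · subst hk'
          rw [Function.update_self] at ha
          exact hS _ _ (List.mem_of_mem_tail ha)
        · rw [Function.update_of_ne hk'] at ha
          exact hS _ _ ha
      obtain ⟨h1, h2⟩ := ih hq (f v (some a)) _ hS'
      have h3 : R A C [] S (idx k) = C.code ⟨k, a⟩ ++ encS A C k l := by
        rw [R_idx, hk]; simp [encS]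
      have hne : R A C [] S (idx k) ≠ [] := by
        rw [h3]
        intro h
        have := congrArg List.length h
        rw [List.length_append, C.len] at this
        simp at this
        omega
      simp only [TM2.stepAux]
      rw [show (S k).head? = some a by rw [hk]; rfl]
      refine ⟨h1, ?_⟩
      rw [hk, List.tail_cons] at h2 ⊢
      have h4 : Runs (match dec A C k (C.code ⟨k, a⟩) with
          | none => Cmd.skip
          | some a' => comp A C D q (f v (some a')))
          (update (R A C [] S) (idx k) (encS A C k l))
          (R A C (stc D (TM2.stepAux q (f v (some a)) (update S k l)))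
            (TM2.stepAux q (f v (some a)) (update S k l)).stk) (cst b bs q) := by
        rw [dec_code A C k a hmem, R_update]
        exact h2
      have h6 := rd_runs (r := idx k) (C.code ⟨k, a⟩) (fun w => match dec A C k w with
          | none => Cmd.skip
          | some a' => comp A C D q (f v (some a'))) (encS A C k l)
          (R A C [] S) _ _ h3 h4
      rw [C.len] at h6
      exact (cases_of_ne hne h6).mono (by simp only [cst]; omega)
  | load f q ih =>
    intro hq v S hS
    exact ih hq (f v) S hS
  | branch f q₁ q₂ ih₁ ih₂ =>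
    intro hq v S hS
    cases hf : f v with
    | true =>
      obtain ⟨h1, h2⟩ := ih₁ (fun x hx => hq (Or.inl hx)) v S hS
      simp only [TM2.stepAux, hf, cond_true, comp, if_true]
      exact ⟨h1, h2.mono (by simp [cst])⟩
    | false =>
      obtain ⟨h1, h2⟩ := ih₂ (fun x hx => hq (Or.inr hx)) v S hS
      simp only [TM2.stepAux, hf, cond_false, comp, Bool.false_eq_true, if_false]
      exact ⟨h1, h2.mono (by simp [cst])⟩
  | goto f =>
    intro hq v S hS
    refine ⟨hS, ?_⟩
    have := wr_runs (r := 1) (D.code (f v, v)) (R A C [] S)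
    rw [R_one, List.append_nil, R_update_one, D.len] at this
    exact this
  | halt =>
    intro hq v S hS
    exact ⟨hS, Runs.skip _⟩

variable (m : Λ → TM2.Stmt Γ Λ σ)

/-- the body of the main loop -/
noncomputable def body : Cmd ℕ :=
  rd 1 bs (fun w => match decS D w with
    | none => Cmd.skip
    | some p => comp A C D (m p.1) p.2)

theorem main_runs (hb : 0 < b) (hbs : 0 < bs) (hm : ∀ l, pushes (m l) ⊆ A) (B : ℕ)
    (hB : ∀ l, cst b bs (m l) ≤ B) :
    ∀ (n : ℕ) (c : TM2.Cfg Γ Λ σ) (v' : σ) (S' : ∀ k, List (Γ k)), Good A c.stk →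
      (flip bind (TM2.step m))^[n] (some c) = some ⟨none, v', S'⟩ →
      Good A S' ∧ Runs (Cmd.loop 1 (body A C D m)) (R A C (stc D c) c.stk) (R A C [] S')
        (n * (2 * bs + B + 1) + 1) := by
  intro n
  induction n with
  | zero =>
    intro c v' S' hG h
    simp only [Function.iterate_zero, id_eq, Option.some.injEq] at h
    subst h
    refine ⟨hG, (Runs.loopNil ?_).conv rfl rfl (by simp)⟩
    rw [R_one]; rfl
  | succ n ih =>
    intro c v' S' hG h
    obtain ⟨l, v, S⟩ := c
    cases l with
    | none =>
      rw [Function.iterate_succ_apply] at h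
      have h0 : flip bind (TM2.step m) (some (⟨none, v, S⟩ : TM2.Cfg Γ Λ σ)) = none := rfl
      rw [h0] at h
      have h1 : ∀ n, (flip bind (TM2.step m))^[n] (none : Option (TM2.Cfg Γ Λ σ)) = none := by
        intro n
        induction n with
        | zero => rfl
        | succ n ih => rw [Function.iterate_succ_apply]; exact ih
      rw [h1] at h
      exact absurd h (by simp)
    | some l =>
      rw [Function.iterate_succ_apply] at h
      have h0 : flip bind (TM2.step m) (some (⟨some l, v, S⟩ : TM2.Cfg Γ Λ σ)) =
        some (TM2.stepAux (m l) v S) := rfl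
      rw [h0] at h
      obtain ⟨h1, h2⟩ := comp_runs A C D hb (m l) (hm l) v S hG
      obtain ⟨h3, h4⟩ := ih _ v' S' h1 h
      refine ⟨h3, ?_⟩
      have e1 : stc D (⟨some l, v, S⟩ : TM2.Cfg Γ Λ σ) = D.code (l, v) := rfl
      rw [e1]
      have h5 := rd_runs (r := 1) (D.code (l, v)) (fun w => match decS D w with
        | none => Cmd.skip
        | some p => comp A C D (m p.1) p.2) [] (R A C (D.code (l, v)) S) _ (cst b bs (m l))
        (by rw [R_one, List.append_nil]) (by
          rw [decS_code, R_update_one]
          exact h2)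
      rw [D.len] at h5
      have hne : R A C (D.code (l, v)) S 1 ≠ [] := by
        rw [R_one]
        intro h
        have := congrArg List.length h
        rw [D.len] at this
        simp at this
        omega
      refine (Runs.loopCons hne h5 h4).mono ?_
      have := hB l
      nlinarith [this]

end Sim

/-! ### the whole program -/

section Whole

variable {K : Type} [DecidableEq K] [Fintype K] {Γ : K → Type} {Λ σ : Type}
variable (A : Set (Σ k, Γ k)) {b : ℕ} (C : Cod A b) {bs : ℕ} (D : Cod (Set.univ : Set (Λ × σ)) bs)

theorem R_zero (w : List Bool) (S : ∀ k, List (Γ k)) : R A C w S 0 = [] :=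
  R_other A C w S 0 (by decide) (fun k h => by have := idx_ge k; omega)

theorem R_two (w : List Bool) (S : ∀ k, List (Γ k)) : R A C w S 2 = [] :=
  R_other A C w S 2 (by decide) (fun k h => by have := idx_ge k; omega)

/-- a stack family with one nonempty stack -/
def one (k : K) (l : List (Γ k)) : ∀ k, List (Γ k) := update (fun _ => []) k l

theorem R_empty : R A C [] (fun k => ([] : List (Γ k))) = fun _ => [] := by
  funext r
  by_cases h1 : r = 1
  · subst h1; rw [R_one]
  · by_cases h2 : ∃ k' : K, idx k' = r
    · obtain ⟨k', rfl⟩ := h2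
      rw [R_idx]; rfl
    · push Not at h2
      rw [R_other _ _ _ _ _ h1 h2]

/-- the input loop -/
noncomputable def inLoop (k : K) (g : Bool → Γ k) : Cmd ℕ :=
  Cmd.loop 2 (Cmd.cases 2 Cmd.skip
    (Cmd.seq (Cmd.pop 2) (wr (idx k) (C.code ⟨k, g false⟩)))
    (Cmd.seq (Cmd.pop 2) (wr (idx k) (C.code ⟨k, g true⟩))))

theorem update_comm' {f : ℕ → List Bool} {i j : ℕ} (h : i ≠ j) (x y : List Bool) :
    update (update f i x) j y = update (update f j y) i x := Function.update_comm h x y f

theorem inLoop_runs (k : K) (g : Bool → Γ k) : ∀ (y : List Bool) (l : List (Γ k)),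
    Runs (inLoop A C k g) (update (R A C [] (one k l)) 2 y)
      (R A C [] (one k ((y.map g).reverse ++ l))) ((b + 4) * y.length + 1) := by
  intro y
  have h2k : (2 : ℕ) ≠ idx k := by have := idx_ge k; omega
  induction y with
  | nil =>
    intro l
    refine (Runs.loopNil (by simp)).conv rfl ?_ (by simp)
    have : update (R A C [] (one k l)) 2 [] = update (R A C [] (one k l)) 2
      (R A C [] (one k l) 2) := by rw [R_two]
    rw [this, Function.update_eq_self]
    simp
  | cons x y ih =>
    intro l
    have hstep : Runs (Cmd.cases 2 Cmd.skip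
        (Cmd.seq (Cmd.pop 2) (wr (idx k) (C.code ⟨k, g false⟩)))
        (Cmd.seq (Cmd.pop 2) (wr (idx k) (C.code ⟨k, g true⟩))))
        (update (R A C [] (one k l)) 2 (x :: y))
        (update (R A C [] (one k (g x :: l))) 2 y) (b + 3) := by
      have h1 : Runs (Cmd.pop 2) (update (R A C [] (one k l)) 2 (x :: y))
          (update (R A C [] (one k l)) 2 y) 1 :=
        (Runs.pop _ 2).conv rfl (by simp) le_rfl
      have h3 : ∀ x, Runs (wr (idx k) (C.code ⟨k, g x⟩)) (update (R A C [] (one k l)) 2 y)
          (update (R A C [] (one k (g x :: l))) 2 y) (b + 1) := by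
        intro x
        refine (wr_runs (r := idx k) (C.code ⟨k, g x⟩) _).conv rfl ?_ (by rw [C.len])
        rw [update_comm' h2k, Function.update_of_ne h2k.symm, R_idx]
        have : C.code ⟨k, g x⟩ ++ encS A C k (one k l k) = encS A C k (g x :: l) := by
          simp [encS, one]
        rw [this, R_update]
        congr 2
        simp [one]
      cases x
      · exact (Runs.casesFalse (l := y) (by simp) (h1.seq (h3 false))).mono (by omega)
      · exact (Runs.casesTrue (l := y) (by simp) (h1.seq (h3 true))).mono (by omega)
    have h4 := ih (g x :: l)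
    refine (Runs.loopCons (by simp) hstep h4).conv rfl ?_ ?_
    · simp
    · simp only [List.length_cons]; nlinarith

/-- the output loop -/
noncomputable def outLoop (k : K) (g : Γ k → Bool) : Cmd ℕ :=
  Cmd.loop (idx k) (rd (idx k) b (fun w => match dec A C k w with
    | none => Cmd.skip
    | some a => Cmd.push 2 (g a)))

theorem outLoop_runs (hb : 0 < b) (k : K) (g : Γ k → Bool) : ∀ (l : List (Γ k)) (y : List Bool),
    (∀ a ∈ l, (⟨k, a⟩ : Σ k, Γ k) ∈ A) →
    Runs (outLoop A C k g) (update (R A C [] (one k l)) 2 y)
      (update (fun _ => []) 2 ((l.map g).reverse ++ y)) ((2 * b + 2) * l.length + 1) := by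
  intro l
  have h2k : (2 : ℕ) ≠ idx k := by have := idx_ge k; omega
  induction l with
  | nil =>
    intro y _
    refine (Runs.loopNil ?_).conv rfl ?_ (by simp)
    · rw [Function.update_of_ne h2k.symm, R_idx]; simp [encS, one]
    · have : one (Γ := Γ) k [] = fun _ => [] := Function.update_eq_self k _
      rw [this, R_empty]
      simp
  | cons a l ih =>
    intro y hl
    have hmem : (⟨k, a⟩ : Σ k, Γ k) ∈ A := hl a (by simp)
    have h3 : update (R A C [] (one k (a :: l))) 2 y (idx k) =
        C.code ⟨k, a⟩ ++ encS A C k l := by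
      rw [Function.update_of_ne h2k.symm, R_idx]; simp [encS, one]
    have h4 : Runs (match dec A C k (C.code ⟨k, a⟩) with
        | none => Cmd.skip
        | some a' => Cmd.push 2 (g a'))
        (update (update (R A C [] (one k (a :: l))) 2 y) (idx k) (encS A C k l))
        (update (R A C [] (one k l)) 2 (g a :: y)) 1 := by
      rw [dec_code A C k a hmem, update_comm' h2k, R_update]
      refine (Runs.push _ 2 (g a)).conv rfl ?_ le_rfl
      rw [Function.update_self, Function.update_idem]
      congr 2
      simp [one]
    have h6 := rd_runs (r := idx k) (C.code ⟨k, a⟩) (fun w => match dec A C k w with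
        | none => Cmd.skip
        | some a' => Cmd.push 2 (g a')) (encS A C k l) _ _ _ h3 h4
    rw [C.len] at h6
    have hne : update (R A C [] (one k (a :: l))) 2 y (idx k) ≠ [] := by
      rw [h3]
      intro h
      have := congrArg List.length h
      rw [List.length_append, C.len] at this
      simp at this
      omega
    refine (Runs.loopCons hne h6 (ih (g a :: y) (fun x hx => hl x (by simp [hx])))).conv rfl ?_ ?_
    · simp
    · simp only [List.length_cons]; nlinarith

end Whole

theorem initList_stk (tm : FinTM2) (s : List (tm.Γ tm.k₀)) :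
    initList tm s = ⟨some tm.main, tm.initialState, one tm.k₀ s⟩ := by
  unfold initList one
  congr 1
  funext k
  by_cases h : k = tm.k₀
  · subst h
    rw [Function.update_self]
    exact dif_pos rfl
  · rw [Function.update_of_ne h]
    exact dif_neg h

theorem haltList_stk (tm : FinTM2) (s : List (tm.Γ tm.k₁)) :
    haltList tm s = ⟨none, tm.initialState, one tm.k₁ s⟩ := by
  unfold haltList one
  congr 1
  funext k
  by_cases h : k = tm.k₁
  · subst h
    rw [Function.update_self]
    exact dif_pos rfl
  · rw [Function.update_of_ne h]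
    exact dif_neg h

/-- **Simulation.** A function computed by a Mathlib stack machine in polynomial time is computed
by a structured program in polynomial time. -/
theorem toPC {α β : Type} {ea : α → List Bool} {eb : β → List Bool} {f : α → β}
    (h : Nonempty (TM2ComputableInPolyTime ea eb f)) : PC ea eb f := by
  obtain ⟨h⟩ := h
  let tm := h.tm
  haveI := tm.kFin
  haveI := tm.ΛFin
  haveI := tm.σFin
  haveI := tm.Γk₀Fin
  let A : Set (Σ k, tm.Γ k) := (⋃ l, pushes (tm.m l)) ∪ Set.range (fun a => ⟨tm.k₀, a⟩)
  have hA : A.Finite := by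
    refine Set.Finite.union (Set.finite_iUnion fun l => pushes_finite _) ?_
    exact Set.finite_range _
  obtain ⟨b, hb, ⟨C⟩⟩ := exists_cod A hA
  obtain ⟨bs, hbs, ⟨D⟩⟩ := exists_cod (Set.univ : Set (tm.Λ × tm.σ)) Set.finite_univ
  obtain ⟨B, hB⟩ : ∃ B, ∀ l, cst b bs (tm.m l) ≤ B := by
    obtain ⟨B, hB⟩ := (Set.finite_range (fun l => cst b bs (tm.m l))).bddAbove
    exact ⟨B, fun l => hB ⟨l, rfl⟩⟩
  have hm : ∀ l, pushes (tm.m l) ⊆ A := fun l x hx => Or.inl (Set.mem_iUnion.2 ⟨l, hx⟩)
  let prog : Cmd ℕ := Cmd.seq (mv 0 2) (Cmd.seq (inLoop A C tm.k₀ h.inputAlphabet.symm)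
    (Cmd.seq (wr 1 (D.code (tm.main, tm.initialState))) (Cmd.seq (Cmd.loop 1 (body A C D tm.m))
      (Cmd.seq (outLoop A C tm.k₁ h.outputAlphabet) (mv 2 0)))))
  let c := 2 * bs + B + 1
  -- the length of the output is bounded
  refine ⟨prog, (Polynomial.C (b + 8) * Polynomial.X + Polynomial.C c * h.time +
    Polynomial.C (4 * b + 20) * (Polynomial.C (b + 1) * Polynomial.X + Polynomial.C c * h.time +
      Polynomial.C (b + bs + 10)) + Polynomial.C (bs + 20)), fun a => ?_⟩
  obtain ⟨⟨n, hn⟩, hn'⟩ := h.outputsFun a
  have hn1 : (flip bind (TM2.step tm.m))^[n]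
      (some (initList tm (List.map h.inputAlphabet.invFun (ea a)))) =
      some (haltList tm (List.map h.outputAlphabet.invFun (eb (f a)))) := hn
  rw [initList_stk, haltList_stk] at hn1
  have hgood : Good A (one tm.k₀ (List.map h.inputAlphabet.invFun (ea a))) := by
    intro k x hx
    by_cases hk : k = tm.k₀
    · subst hk; exact Or.inr ⟨x, rfl⟩
    · rw [one, Function.update_of_ne hk] at hx; simp at hx
  obtain ⟨hg', hmain⟩ := main_runs A C D tm.m hb hbs hm B hB n _ _ _ hgood hn1
  -- input
  have r1 : Runs (mv 0 2) (inp (ea a)) (update (R A C [] (one tm.k₀ [])) 2 (ea a).reverse)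
      (4 * (ea a).length + 1) := by
    refine mv_runs (by decide) (ea a) _ _ (by simp [inp]) ?_
    have : one (Γ := tm.Γ) tm.k₀ [] = fun _ => [] := Function.update_eq_self tm.k₀ _
    rw [this, R_empty]
    simp [inp]
  have r2 := inLoop_runs A C tm.k₀ h.inputAlphabet.symm (ea a).reverse []
  rw [List.append_nil, List.map_reverse, List.reverse_reverse] at r2
  have r3 : Runs (wr 1 (D.code (tm.main, tm.initialState)))
      (R A C [] (one tm.k₀ (List.map h.inputAlphabet.symm (ea a))))
      (R A C (D.code (tm.main, tm.initialState))
        (one tm.k₀ (List.map h.inputAlphabet.symm (ea a)))) (bs + 1) := by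
    refine (wr_runs _ _).conv rfl ?_ (by rw [D.len])
    rw [R_one, List.append_nil, R_update_one]
  have r5 := outLoop_runs A C hb tm.k₁ h.outputAlphabet
    (List.map h.outputAlphabet.invFun (eb (f a))) [] (by
      intro x hx
      have := hg' tm.k₁ x
      rw [one, Function.update_self] at this
      exact this hx)
  have e5 : update (R A C [] (one tm.k₁ (List.map h.outputAlphabet.invFun (eb (f a))))) 2 [] =
      R A C [] (one tm.k₁ (List.map h.outputAlphabet.invFun (eb (f a)))) := by
    have := Function.update_eq_self 2
      (R A C [] (one tm.k₁ (List.map h.outputAlphabet.invFun (eb (f a)))))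
    rwa [R_two] at this
  rw [e5, List.append_nil, List.map_map] at r5
  have e6 : (⇑h.outputAlphabet ∘ h.outputAlphabet.invFun) = id := by
    funext x; exact h.outputAlphabet.apply_symm_apply x
  rw [e6, List.map_id, List.length_map] at r5
  have r6 : Runs (mv 2 0) (update (fun _ => []) 2 (eb (f a)).reverse) (inp (eb (f a)))
      (4 * (eb (f a)).length + 1) := by
    refine (mv_runs (by decide) (eb (f a)).reverse _ _ (by simp) ?_).mono (by simp)
    simp [inp]
  have hall := r1.seq (r2.seq (r3.seq (hmain.seq (r5.seq r6))))
  -- length of the output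
  have hlen : (eb (f a)).length ≤ (b + 1) * (ea a).length + n * c + (b + bs + 10) := by
    obtain ⟨t, ht, hr⟩ := hmain
    have := hr.length_le (idx tm.k₁)
    rw [R_idx, R_idx] at this
    have e7 : ∀ l : List (tm.Γ tm.k₁), (encS A C tm.k₁ l).length = b * l.length := by
      intro l
      induction l with
      | nil => simp [encS]
      | cons x l ih =>
        have : encS A C tm.k₁ (x :: l) = C.code ⟨tm.k₁, x⟩ ++ encS A C tm.k₁ l := by
          simp [encS]
        rw [this, List.length_append, C.len, ih, List.length_cons]; ring
    rw [e7, e7] at this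
    have e8 : (one tm.k₁ (List.map h.outputAlphabet.invFun (eb (f a))) tm.k₁).length =
        (eb (f a)).length := by
      rw [one, Function.update_self, List.length_map]
    have e9 : (one tm.k₀ (List.map h.inputAlphabet.invFun (ea a)) tm.k₁).length ≤
        (ea a).length := by
      unfold one
      by_cases hk : tm.k₁ = tm.k₀
      · have : (update (fun _ => []) tm.k₀ (List.map h.inputAlphabet.invFun (ea a)) tm.k₀ :
          List (tm.Γ tm.k₀)).length ≤ (ea a).length := by
          rw [Function.update_self, List.length_map]
        have key : ∀ k, k = tm.k₀ → (update (fun _ => []) tm.k₀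
          (List.map h.inputAlphabet.invFun (ea a)) k : List (tm.Γ k)).length ≤
            (ea a).length := by
          intro k hk; subst hk; exact this
        exact key _ hk
      · rw [Function.update_of_ne hk]; simp
    have e10 : (one tm.k₁ (List.map h.outputAlphabet.invFun (eb (f a))) tm.k₁).length ≤
        b * (one tm.k₁ (List.map h.outputAlphabet.invFun (eb (f a))) tm.k₁).length :=
      Nat.le_mul_of_pos_left _ hb
    have e11 : b * (one tm.k₀ (List.map h.inputAlphabet.invFun (ea a)) tm.k₁).length ≤
        b * (ea a).length := Nat.mul_le_mul_left _ e9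
    have e12 : t ≤ n * c + 1 := ht
    rw [e8] at e10
    simp only at this
    nlinarith [this, e10, e11, e12]
  have hn2 : n ≤ h.time.eval (ea a).length := hn'
  refine hall.mono ?_
  simp only [Polynomial.eval_add, Polynomial.eval_mul, Polynomial.eval_C, Polynomial.eval_X]
  have h1 : n * c ≤ c * h.time.eval (ea a).length := by
    rw [mul_comm]; exact Nat.mul_le_mul_left _ hn2
  have h2 : (eb (f a)).length ≤ (b + 1) * (ea a).length + c * h.time.eval (ea a).length +
      (b + bs + 10) := by omega
  have h3 : (2 * b + 2) * (eb (f a)).length + 4 * (eb (f a)).length ≤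
      (4 * b + 20) * ((b + 1) * (ea a).length + c * h.time.eval (ea a).length +
      (b + bs + 10)) := by
    calc (2 * b + 2) * (eb (f a)).length + 4 * (eb (f a)).length
        = (2 * b + 6) * (eb (f a)).length := by ring
      _ ≤ (4 * b + 20) * (eb (f a)).length := Nat.mul_le_mul_right _ (by omega)
      _ ≤ _ := Nat.mul_le_mul_left _ h2
  have h4 : n * (2 * bs + B + 1) = n * c := rfl
  rw [List.length_reverse]
  have h5 : (b + 4) * (ea a).length + 4 * (ea a).length = (b + 8) * (ea a).length := by ring
  rw [h4]
  omega

/-- Programs of the structured language and stack machines compute the same functions in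
polynomial time. -/
theorem polyTime_toPC {f : List Bool → List Bool} (h : PolyTime f) :
    PC (id : List Bool → List Bool) (id : List Bool → List Bool) f := toPC h

/-- Polynomial-time computable functions are closed under composition. -/
theorem polyTime_comp {f g : List Bool → List Bool} (hg : PolyTime g) (hf : PolyTime f) :
    PolyTime (fun x => g (f x)) :=
  PC.toPolyTime (PC.comp (polyTime_toPC hg) (polyTime_toPC hf))

end Pool.Agent.H642R2.TMSim
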